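import Mathlib

/-!
# Whittaker vectors over the Witt algebra

A module over the Witt algebra with a vector `w` such that `e_1 w = w` and `e_n w = 0` for `n ≥ 2`.
The submodule generated by `w` is simple.
-/

set_option autoImplicit false

namespace Q65.WP

open Polynomial

universe u v

/-- Operators satisfying the relations of the Witt algebra, with a Whittaker vector. -/
structure WM (K : Type u) (M : Type v) [Field K] [AddCommGroup M] [Module K M] where
  /-- the operators -/
  E : ℤ → M →ₗ[K] M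
  comm : ∀ (m n : ℤ) (x : M), E m (E n x) = E n (E m x) + ((n - m : ℤ) : K) • E (m + n) x
  /-- the Whittaker vector -/
  w : M
  w0 : w ≠ 0
  e1 : E 1 w = w
  e2 : ∀ n : ℤ, 2 ≤ n → E n w = 0

namespace WM

variable {K : Type u} {M : Type v} [Field K] [AddCommGroup M] [Module K M] (W : WM K M)

/-- the vector `e_{-a_1} ⋯ e_{-a_r} w` -/
def fw : List ℕ → M
  | [] => W.w
  | a :: l => W.E (-(a : ℤ)) (fw l)

lemma fw_nil : W.fw [] = W.w := rfl

lemma fw_cons (a : ℕ) (l : List ℕ) : W.fw (a :: l) = W.E (-(a : ℤ)) (W.fw l) := rfl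

/-- the span of the vectors `fw l`, for lists `l` satisfying `P` -/
def Sp (P : List ℕ → Prop) : Submodule K M := Submodule.span K {x | ∃ l, P l ∧ x = W.fw l}

lemma mem_Sp {P : List ℕ → Prop} {l : List ℕ} (h : P l) : W.fw l ∈ W.Sp P :=
  Submodule.subset_span ⟨l, h, rfl⟩

lemma Sp_mono {P Q : List ℕ → Prop} (h : ∀ l, P l → Q l) : W.Sp P ≤ W.Sp Q :=
  Submodule.span_mono fun _ ⟨l, hl, e⟩ => ⟨l, h l hl, e⟩

lemma Sp_map {P : List ℕ → Prop} {N : Type*} [AddCommGroup N] [Module K N] {Q : Submodule K N}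
    (f : M →ₗ[K] N) (h : ∀ l, P l → f (W.fw l) ∈ Q) {x : M} (hx : x ∈ W.Sp P) : f x ∈ Q := by
  have : W.Sp P ≤ Q.comap f := by
    refine Submodule.span_le.2 ?_
    rintro y ⟨l, hl, rfl⟩
    exact h l hl
  exact this hx

lemma cons_Sp {P Q : List ℕ → Prop} (a : ℕ) (h : ∀ l, P l → Q (a :: l)) {x : M}
    (hx : x ∈ W.Sp P) : W.E (-(a : ℤ)) x ∈ W.Sp Q :=
  W.Sp_map (W.E (-(a : ℤ))) (fun l hl => by rw [← fw_cons]; exact W.mem_Sp (h l hl)) hx

/-- the weight filtration -/
def Wt (N : ℤ) : Submodule K M := W.Sp (fun l => (l.sum : ℤ) ≤ N)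

/-- the length filtration -/
def G (n : ℕ) : Submodule K M := W.Sp (fun l => l.length < n)

lemma Wt_mono {N N' : ℤ} (h : N ≤ N') : W.Wt N ≤ W.Wt N' := W.Sp_mono fun _ hl => hl.trans h

lemma G_mono {n n' : ℕ} (h : n ≤ n') : W.G n ≤ W.G n' := W.Sp_mono fun _ hl => hl.trans_le h

lemma fw_Wt {l : List ℕ} {N : ℤ} (h : (l.sum : ℤ) ≤ N) : W.fw l ∈ W.Wt N := W.mem_Sp h

lemma fw_G {l : List ℕ} {n : ℕ} (h : l.length < n) : W.fw l ∈ W.G n := W.mem_Sp h

lemma Wt_neg {N : ℤ} (h : N < 0) : W.Wt N = ⊥ := by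
  refine (Submodule.span_eq_bot).2 ?_
  rintro x ⟨l, hl, rfl⟩
  exfalso
  have : (0 : ℤ) ≤ l.sum := Int.natCast_nonneg _
  omega

lemma G_zero : W.G 0 = ⊥ := by
  refine (Submodule.span_eq_bot).2 ?_
  rintro x ⟨l, hl, rfl⟩
  exact absurd hl (Nat.not_lt_zero _)

lemma cons_Wt (a : ℕ) {N N' : ℤ} (h : N + a ≤ N') {x : M} (hx : x ∈ W.Wt N) :
    W.E (-(a : ℤ)) x ∈ W.Wt N' :=
  W.cons_Sp a (fun l hl => by rw [List.sum_cons]; omega) hx

lemma cons_G (a : ℕ) {n n' : ℕ} (h : n + 1 ≤ n') {x : M} (hx : x ∈ W.G n) :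
    W.E (-(a : ℤ)) x ∈ W.G n' :=
  W.cons_Sp a (fun l hl => by rw [List.length_cons]; omega) hx

/-- sorting changes a word by shorter words with the same weight -/
lemma perm {l l' : List ℕ} (h : l.Perm l') :
    W.fw l - W.fw l' ∈ W.Sp (fun m => m.length < l.length ∧ m.sum = l.sum) := by
  induction h with
  | nil => simp
  | @cons a l₁ l₂ h ih =>
    rw [fw_cons, fw_cons, ← map_sub]
    refine W.cons_Sp a ?_ ih
    rintro m ⟨h1, h2⟩
    simp only [List.length_cons, List.sum_cons]
    omega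
  | swap a b l =>
    rw [fw_cons, fw_cons, fw_cons, fw_cons, W.comm (-(b : ℤ)) (-(a : ℤ)), add_sub_cancel_left]
    have e : -(b : ℤ) + -(a : ℤ) = -((a + b : ℕ) : ℤ) := by push_cast; ring
    rw [e, ← fw_cons]
    refine Submodule.smul_mem _ _ (W.mem_Sp ?_)
    simp only [List.length_cons, List.sum_cons]
    omega
  | @trans l₁ l₂ l₃ h1 h2 ih1 ih2 =>
    have e1 := h1.length_eq
    have e2 := h1.sum_eq
    rw [← e1, ← e2] at ih2
    have := Submodule.add_mem _ ih1 ih2
    rwa [sub_add_sub_cancel] at this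

/-! ### The weight filtration -/

lemma E_fw_Wt (l : List ℕ) : ∀ n : ℤ, W.E n (W.fw l) ∈ W.Wt (l.sum + 1 - n) := by
  induction l with
  | nil =>
    intro n
    rcases le_or_gt n 0 with h | h
    · obtain ⟨a, rfl⟩ : ∃ a : ℕ, n = -(a : ℤ) := ⟨n.natAbs, by omega⟩
      rw [← fw_cons]
      refine W.fw_Wt ?_
      simp
    · rcases eq_or_lt_of_le (show (1 : ℤ) ≤ n from h) with h1 | h1
      · rw [← h1, fw_nil, W.e1, ← fw_nil]
        refine W.fw_Wt ?_
        simp
      · rw [fw_nil, W.e2 n h1]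
        exact Submodule.zero_mem _
  | cons a l ih =>
    intro n
    rw [fw_cons, W.comm]
    refine Submodule.add_mem _ (W.cons_Wt a ?_ (ih n)) (Submodule.smul_mem _ _ (W.Wt_mono ?_ (ih _)))
    · rw [List.sum_cons]; omega
    · rw [List.sum_cons]; omega

lemma E_Wt (n : ℤ) {N N' : ℤ} (h : N + 1 - n ≤ N') {x : M} (hx : x ∈ W.Wt N) :
    W.E n x ∈ W.Wt N' :=
  W.Sp_map (W.E n) (fun l hl => W.Wt_mono (by omega) (W.E_fw_Wt l n)) hx

lemma E1_fw (l : List ℕ) (hl : ∀ a ∈ l, 1 ≤ a) : W.E 1 (W.fw l) - W.fw l ∈ W.Wt (l.sum - 1) := by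
  induction l with
  | nil => rw [fw_nil, W.e1, sub_self]; exact Submodule.zero_mem _
  | cons a l ih =>
    have ha : 1 ≤ a := hl a (by simp)
    have ih' := ih fun b hb => hl b (by simp [hb])
    rw [fw_cons, W.comm, add_sub_right_comm, ← map_sub]
    refine Submodule.add_mem _ (W.cons_Wt a ?_ ih') (Submodule.smul_mem _ _ ?_)
    · rw [List.sum_cons]; omega
    · have e : (1 : ℤ) + -(a : ℤ) = -((a - 1 : ℕ) : ℤ) := by omega
      rw [e, ← fw_cons]
      refine W.fw_Wt ?_
      rw [List.sum_cons, List.sum_cons]; omega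

/-- the leading term of `e_{ℓ+1}` on a sorted word with letters at least `ℓ` -/
lemma El_fw (ℓ : ℕ) (hℓ : 1 ≤ ℓ) (l : List ℕ) (hs : l.Pairwise (· ≤ ·)) (hl : ∀ a ∈ l, ℓ ≤ a) :
    W.E (ℓ + 1) (W.fw l) - ((-(2 * ℓ + 1) * (l.count ℓ) : ℤ) : K) • W.fw (l.erase ℓ) ∈
      W.Wt (l.sum - ℓ - 1) := by
  induction l with
  | nil =>
    rw [fw_nil, W.e2 _ (by omega)]
    simp
  | cons a l ih =>
    have ha : ℓ ≤ a := hl a (by simp)
    have hs' := List.pairwise_cons.1 hs
    have ih' := ih hs'.2 fun b hb => hl b (by simp [hb])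
    rcases eq_or_lt_of_le ha with h | h
    · subst h
      rw [List.erase_cons_head, List.count_cons_self, fw_cons, W.comm]
      have e0 : ((ℓ : ℤ) + 1) + -(ℓ : ℤ) = 1 := by ring
      rw [e0]
      have e1 := W.E1_fw l (fun b hb => hℓ.trans (hl b (by simp [hb])))
      have e2 : W.E (-(ℓ : ℤ)) (((-(2 * ℓ + 1) * (l.count ℓ) : ℤ) : K) • W.fw (l.erase ℓ)) =
          ((-(2 * ℓ + 1) * (l.count ℓ) : ℤ) : K) • W.fw l := by
        rcases l with _ | ⟨b, l⟩
        · simp
        · by_cases hb : b = ℓ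
          · subst hb
            rw [List.erase_cons_head, map_smul, ← fw_cons]
          · have : (b :: l).count ℓ = 0 := by
              rw [List.count_eq_zero]
              intro hmem
              rcases List.mem_cons.1 hmem with h1 | h1
              · exact hb h1.symm
              · have h2 := (List.pairwise_cons.1 hs'.2).1 ℓ h1
                have h3 := hl b (by simp)
                omega
            rw [this]
            simp
      have e3 := W.cons_Wt ℓ (N' := (ℓ :: l).sum - ℓ - 1) (by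
        rw [List.sum_cons]; omega) ih'
      have e4 := Submodule.smul_mem (W.Wt ((ℓ :: l).sum - ℓ - 1)) ((-(ℓ : ℤ) - (ℓ + 1) : ℤ) : K)
        (W.Wt_mono (by rw [List.sum_cons]; omega) e1)
      have e5 := Submodule.add_mem _ e3 e4
      convert e5 using 1
      rw [map_sub, e2, smul_sub]
      push_cast
      module
    · have hc : (a :: l).count ℓ = 0 := by
        rw [List.count_eq_zero]
        intro hmem
        rcases List.mem_cons.1 hmem with h1 | h1
        · omega
        · have := hs'.1 ℓ h1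
          omega
      have hc' : l.count ℓ = 0 := by
        rw [List.count_eq_zero]
        intro hmem
        have := hs'.1 ℓ hmem
        omega
      rw [hc'] at ih'
      rw [hc]
      simp only [Nat.cast_zero, mul_zero, Int.cast_zero, zero_smul, sub_zero] at ih' ⊢
      rw [fw_cons, W.comm]
      refine Submodule.add_mem _ (W.cons_Wt a ?_ ih') (Submodule.smul_mem _ _ ?_)
      · rw [List.sum_cons]; omega
      · have e : (ℓ : ℤ) + 1 + -(a : ℤ) = -((a - ℓ - 1 : ℕ) : ℤ) := by omega
        rw [e, ← fw_cons]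
        refine W.fw_Wt ?_
        rw [List.sum_cons, List.sum_cons]; omega

/-! ### The action of polynomials in `e_0` -/

/-- the operator `p(e_0)` -/
noncomputable def A (p : K[X]) : M →ₗ[K] M := aeval (R := K) (A := Module.End K M) (W.E 0) p

lemma A_add (p q : K[X]) (x : M) : W.A (p + q) x = W.A p x + W.A q x := by
  rw [A, A, A, map_add, LinearMap.add_apply]

lemma A_sub (p q : K[X]) (x : M) : W.A (p - q) x = W.A p x - W.A q x := by
  rw [A, A, A, map_sub, LinearMap.sub_apply]

lemma A_zero (x : M) : W.A 0 x = 0 := by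
  rw [A, map_zero, LinearMap.zero_apply]

lemma A_C (c : K) (x : M) : W.A (C c) x = c • x := by
  rw [A, aeval_C, Module.algebraMap_end_apply]

lemma A_X (x : M) : W.A X x = W.E 0 x := by
  rw [A, aeval_X]

lemma A_mul (p q : K[X]) (x : M) : W.A (p * q) x = W.A p (W.A q x) := by
  rw [A, A, A, map_mul, Module.End.mul_apply]

lemma A_C_mul (c : K) (q : K[X]) (x : M) : W.A (C c * q) x = c • W.A q x := by
  rw [A_mul, A_C]

lemma A_mem {S : Submodule K M} (hS : ∀ x ∈ S, W.E 0 x ∈ S) (p : K[X]) {x : M} (hx : x ∈ S) :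
    W.A p x ∈ S := by
  induction p using Polynomial.induction_on' with
  | add p q hp hq => rw [A_add]; exact S.add_mem hp hq
  | monomial n c =>
    rw [← C_mul_X_pow_eq_monomial, A_C_mul]
    refine S.smul_mem _ ?_
    induction n with
    | zero => rw [pow_zero, ← C_1, A_C]; exact S.smul_mem _ hx
    | succ n ih => rw [pow_succ', A_mul, A_X]; exact hS _ ih

lemma E0_Wt (N : ℤ) {x : M} (hx : x ∈ W.Wt N) : W.E 0 x ∈ W.Wt N := by
  have := W.cons_Wt 0 (N := N) (N' := N) (by simp) hx
  simpa using this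

lemma A_Wt (p : K[X]) {N : ℤ} {x : M} (hx : x ∈ W.Wt N) : W.A p x ∈ W.Wt N :=
  W.A_mem (fun _ h => W.E0_Wt N h) p hx

lemma E_A (n : ℤ) (p : K[X]) (x : M) :
    W.E n (W.A p x) = W.A (p.comp (X - C (n : K))) (W.E n x) := by
  induction p using Polynomial.induction_on' with
  | add p q hp hq => rw [A_add, map_add, hp, hq, add_comp, A_add]
  | monomial m c =>
    rw [← C_mul_X_pow_eq_monomial, A_C_mul, map_smul, mul_comp, C_comp, A_C_mul]
    congr 1
    induction m with
    | zero => rw [pow_zero, one_comp, ← C_1, A_C, A_C, map_smul]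
    | succ m ih =>
      rw [pow_succ', A_mul, A_X, W.comm, mul_comp, X_comp, A_mul, A_sub, A_X, A_C, add_zero, ih]
      push_cast
      module

lemma comp_ne {p : K[X]} (hp : p ≠ 0) (c : K) : p.comp (X - C c) ≠ 0 := by
  have h : p.comp (X - C c) = taylor (-c) p := by
    rw [taylor_apply, C_neg, sub_eq_add_neg]
  rw [h]
  exact (taylor_eq_zero _ _).not.2 hp

/-- combination of words with coefficients polynomials in `e_0` -/
noncomputable def Psi (F : List ℕ →₀ K[X]) : M := F.sum fun l p => W.A p (W.fw l)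

lemma Psi_add (F F' : List ℕ →₀ K[X]) : W.Psi (F + F') = W.Psi F + W.Psi F' := by
  unfold Psi
  exact Finsupp.sum_add_index' (fun l => W.A_zero _) (fun l p q => W.A_add _ _ _)

lemma Psi_single (l : List ℕ) (p : K[X]) : W.Psi (Finsupp.single l p) = W.A p (W.fw l) := by
  unfold Psi
  exact Finsupp.sum_single_index (W.A_zero _)

lemma Psi_zero : W.Psi (0 : List ℕ →₀ K[X]) = 0 := by
  unfold Psi
  exact Finsupp.sum_zero_index

lemma Psi_sum {ι : Type*} (s : Finset ι) (f : ι → List ℕ →₀ K[X]) :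
    W.Psi (∑ i ∈ s, f i) = ∑ i ∈ s, W.Psi (f i) := by
  classical
  induction s using Finset.induction_on with
  | empty => simp [Psi_zero]
  | insert a s ha ih => rw [Finset.sum_insert ha, Finset.sum_insert ha, Psi_add, ih]

/-- a polynomial in `e_0` applied to `w` generates `w` -/
lemma base [CharZero K] {S : Submodule K M} (hS : ∀ (n : ℤ), ∀ x ∈ S, W.E n x ∈ S) :
    ∀ (d : ℕ) (p : K[X]), p.natDegree ≤ d → p ≠ 0 → W.A p W.w ∈ S → W.w ∈ S := by
  intro d
  induction d with
  | zero =>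
    intro p hd hp h
    have h1 : p = C (p.coeff 0) := eq_C_of_natDegree_le_zero hd
    have h2 : p.coeff 0 ≠ 0 := by
      intro h0
      rw [h0, C_0] at h1
      exact hp h1
    rw [h1, A_C] at h
    have := S.smul_mem (p.coeff 0)⁻¹ h
    rwa [smul_smul, inv_mul_cancel₀ h2, one_smul] at this
  | succ d ih =>
    intro p hd hp h
    by_cases hd' : p.natDegree ≤ d
    · exact ih p hd' hp h
    have hdeg : p.natDegree = d + 1 := by omega
    set q := p.comp (X - C ((1 : ℤ) : K)) - p with hq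
    have hmem : W.A q W.w ∈ S := by
      have h1 := hS 1 _ h
      rw [E_A, W.e1] at h1
      rw [hq, A_sub]
      exact S.sub_mem h1 h
    have hX : (X - C ((1 : ℤ) : K)) = (X : K[X]) - C 1 := by simp
    have hq0 : q ≠ 0 := by
      intro h0
      have hp1 : p.comp (X - C 1) = p := by rw [← hX]; exact sub_eq_zero.1 h0
      have hper : ∀ n : ℕ, p.eval (-(n : K)) = p.eval 0 := by
        intro n
        induction n with
        | zero => simp
        | succ n ihn =>
          have h2 := congrArg (fun r => eval (-(n : K)) r) hp1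
          simp only [eval_comp, eval_sub, eval_X, eval_C] at h2
          rw [Nat.cast_succ, neg_add, ← sub_eq_add_neg, h2, ihn]
      have hC : p = C (p.eval 0) := by
        refine Polynomial.eq_of_infinite_eval_eq _ _ ?_
        refine Set.infinite_of_injective_forall_mem (f := fun n : ℕ => -(n : K)) ?_ ?_
        · intro a b hab
          exact Nat.cast_injective (neg_injective hab)
        · intro n
          simp [hper n]
      rw [hC, natDegree_C] at hdeg
      omega
    have hqd : q.natDegree ≤ d := by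
      have hn : (p.comp (X - C 1)).natDegree = p.natDegree := by
        rw [natDegree_comp, natDegree_X_sub_C, mul_one]
      have hl : (p.comp (X - C 1)).leadingCoeff = p.leadingCoeff := by
        rw [leadingCoeff_comp (by rw [natDegree_X_sub_C]; exact one_ne_zero),
          leadingCoeff_X_sub_C, one_pow, mul_one]
      have hlt : (p.comp (X - C 1) - p).degree < (p.comp (X - C 1)).degree := by
        refine degree_sub_lt_left ?_ ?_ hl
        · rw [degree_eq_natDegree (comp_ne hp 1), degree_eq_natDegree hp, hn]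
        · exact comp_ne hp 1
      have hlt' := natDegree_lt_natDegree (by rw [← hX]; exact hq0) hlt
      rw [hn, hdeg, ← hX, ← hq] at hlt'
      omega
    exact ih q hqd hq0 hmem

/-- sorted words with positive letters -/
def PS (l : List ℕ) : Prop := l.Pairwise (· ≤ ·) ∧ ∀ a ∈ l, 1 ≤ a

lemma PS.erase {l : List ℕ} (h : PS l) (a : ℕ) : PS (l.erase a) :=
  ⟨h.1.sublist List.erase_sublist, fun _ hb => h.2 _ (List.mem_of_mem_erase hb)⟩

lemma erase_inj {ℓ : ℕ} {l l' : List ℕ} (hl : l.Pairwise (· ≤ ·)) (hl' : l'.Pairwise (· ≤ ·))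
    (h1 : ∀ a ∈ l, ℓ ≤ a) (h1' : ∀ a ∈ l', ℓ ≤ a) (h2 : ℓ ∈ l) (h2' : ℓ ∈ l')
    (h : l.erase ℓ = l'.erase ℓ) : l = l' := by
  have key : ∀ m : List ℕ, m.Pairwise (· ≤ ·) → (∀ a ∈ m, ℓ ≤ a) → ℓ ∈ m → m = ℓ :: m.erase ℓ := by
    intro m hm h1 h2
    rcases m with _ | ⟨a, m⟩
    · simp at h2
    · have ha : a = ℓ := by
        rcases List.mem_cons.1 h2 with h3 | h3
        · exact h3.symm
        · have h4 := (List.pairwise_cons.1 hm).1 ℓ h3
          have h5 := h1 a (by simp)
          omega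
      subst ha
      simp
  rw [key l hl h1 h2, key l' hl' h1' h2', h]

/-- main step: a vector with nonzero component of weight `N` generates `w` -/
lemma claim [CharZero K] {S : Submodule K M} (hS : ∀ (n : ℤ), ∀ x ∈ S, W.E n x ∈ S) :
    ∀ (N : ℕ) (F : List ℕ →₀ K[X]), F ≠ 0 → (∀ l ∈ F.support, PS l ∧ l.sum = N) →
      ∀ y ∈ W.Wt ((N : ℤ) - 1), W.Psi F + y ∈ S → W.w ∈ S := by
  intro N
  induction N using Nat.strong_induction_on with
  | _ N IH =>
  intro F hF hs y hy hmem
  rcases Nat.eq_zero_or_pos N with rfl | hN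
  · have hy0 : y = 0 := by
      rw [W.Wt_neg (by omega)] at hy
      exact (Submodule.mem_bot K).1 hy
    have hnil : ∀ l ∈ F.support, l = [] := by
      intro l hl
      obtain ⟨h1, h2⟩ := hs l hl
      rcases l with _ | ⟨a, l⟩
      · rfl
      · have := h1.2 a (by simp)
        rw [List.sum_cons] at h2
        omega
    have hF1 : F = Finsupp.single [] (F []) := by
      ext1 l
      by_cases h : l = []
      · subst h; simp
      · rw [Finsupp.single_eq_of_ne h]
        by_contra h0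
        exact h (hnil l (Finsupp.mem_support_iff.2 h0))
    have hF2 : F [] ≠ 0 := by
      intro h0
      rw [h0, Finsupp.single_zero] at hF1
      exact hF hF1
    rw [hy0, add_zero, hF1, Psi_single] at hmem
    exact W.base hS _ _ le_rfl hF2 hmem
  · have hex : ∃ ℓ : ℕ, ∃ l ∈ F.support, ℓ ∈ l := by
      obtain ⟨l, hl⟩ := Finsupp.support_nonempty_iff.2 hF
      obtain ⟨h1, h2⟩ := hs l hl
      rcases l with _ | ⟨a, l⟩
      · simp at h2; omega
      · exact ⟨a, _, hl, by simp⟩
    set ℓ := Nat.find hex with hℓ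
    obtain ⟨l0, hl0, hℓ0⟩ := Nat.find_spec hex
    rw [← hℓ] at hℓ0
    have hmin : ∀ l ∈ F.support, ∀ a ∈ l, ℓ ≤ a := fun l hl a ha => Nat.find_min' hex ⟨l, hl, ha⟩
    have hℓ1 : 1 ≤ ℓ := (hs l0 hl0).1.2 ℓ hℓ0
    have hsum : ∀ l ∈ F.support, ℓ ∈ l → (l.erase ℓ).sum + ℓ = N := by
      intro l hl hm
      rw [add_comm, List.sum_erase hm]
      exact (hs l hl).2
    have hℓN : ℓ ≤ N := by have := hsum l0 hl0 hℓ0; omega
    set cf : List ℕ → K[X] := fun l => C ((-(2 * ℓ + 1) * (l.count ℓ) : ℤ) : K) *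
      (F l).comp (X - C (((ℓ : ℤ) + 1 : ℤ) : K)) with hcf
    set F' : List ℕ →₀ K[X] := ∑ l ∈ F.support.filter (fun l => ℓ ∈ l),
      Finsupp.single (l.erase ℓ) (cf l) with hF'
    have hval : F' (l0.erase ℓ) = cf l0 := by
      rw [hF', Finsupp.finsetSum_apply]
      rw [Finset.sum_eq_single l0]
      · rw [Finsupp.single_eq_same]
      · intro l hl hne
        rw [Finset.mem_filter] at hl
        rw [Finsupp.single_eq_of_ne]
        intro h
        exact hne (erase_inj (hs l hl.1).1.1 (hs l0 hl0).1.1 (hmin l hl.1) (hmin l0 hl0) hl.2 hℓ0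
          h.symm)
      · intro h
        exact (h (Finset.mem_filter.2 ⟨hl0, hℓ0⟩)).elim
    have hF'0 : F' ≠ 0 := by
      intro h0
      rw [h0, Finsupp.zero_apply] at hval
      refine mul_ne_zero ?_ (comp_ne (Finsupp.mem_support_iff.1 hl0) _) hval.symm
      rw [Ne, C_eq_zero, Int.cast_eq_zero]
      refine mul_ne_zero (by omega) ?_
      have := List.count_pos_iff.2 hℓ0
      omega
    have hs' : ∀ l ∈ F'.support, PS l ∧ l.sum = N - ℓ := by
      intro l hl
      rw [Finsupp.mem_support_iff, hF', Finsupp.finsetSum_apply] at hl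
      obtain ⟨m, hm, hm0⟩ := Finset.exists_ne_zero_of_sum_ne_zero hl
      rw [Finset.mem_filter] at hm
      by_cases he : l = m.erase ℓ
      · subst he
        refine ⟨(hs m hm.1).1.erase ℓ, ?_⟩
        have := hsum m hm.1 hm.2
        omega
      · rw [Finsupp.single_eq_of_ne he] at hm0
        exact absurd rfl hm0
    have hterm : ∀ l ∈ F.support, W.E (ℓ + 1) (W.A (F l) (W.fw l)) -
        W.A (cf l) (W.fw (l.erase ℓ)) ∈ W.Wt (((N - ℓ : ℕ) : ℤ) - 1) := by
      intro l hl
      rw [E_A, hcf]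
      beta_reduce
      rw [A_C_mul, ← map_smul, ← map_sub]
      refine W.A_Wt _ (W.Wt_mono ?_ (W.El_fw ℓ hℓ1 l (hs l hl).1.1 (hmin l hl)))
      rw [(hs l hl).2]
      omega
    have hdiff : W.E (ℓ + 1) (W.Psi F) - W.Psi F' ∈ W.Wt (((N - ℓ : ℕ) : ℤ) - 1) := by
      have h1 : W.E (ℓ + 1) (W.Psi F) - W.Psi F' =
          ∑ l ∈ F.support, (W.E (ℓ + 1) (W.A (F l) (W.fw l)) - W.A (cf l) (W.fw (l.erase ℓ))) := by
        rw [Finset.sum_sub_distrib, Psi, Finsupp.sum, map_sum]
        congr 1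
        rw [hF', Psi_sum]
        simp only [Psi_single]
        refine Finset.sum_subset (Finset.filter_subset _ _) ?_
        intro l hl hnot
        have hc : l.count ℓ = 0 := by
          rw [List.count_eq_zero]
          intro h
          exact hnot (Finset.mem_filter.2 ⟨hl, h⟩)
        rw [hcf]
        beta_reduce
        rw [hc]
        simp [A_zero]
      rw [h1]
      exact Submodule.sum_mem _ hterm
    have hy' : W.E (ℓ + 1) y ∈ W.Wt (((N - ℓ : ℕ) : ℤ) - 1) := W.E_Wt _ (by omega) hy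
    refine IH (N - ℓ) (by omega) F' hF'0 hs' _ (Submodule.add_mem _ hdiff hy') ?_
    have := hS (ℓ + 1) _ hmem
    rw [map_add] at this
    convert this using 1
    abel

end WM

end Q65.WP
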