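import Pool.Agent.Q65.WP.Core
import Pool.Agent.Helper855.VirasoroTheory

/-!
# Existence of a Whittaker vector

In the dual space of a Verma module of central charge `0`.
-/

set_option autoImplicit false

namespace Q65.WP

open Pool.Agent.Helper855.Virasoro

universe u

variable {K : Type u} [Field K]

variable (K) in
/-- the Verma module of central charge and weight `0` -/
abbrev VM : Type u := Pool.Agent.Helper855.Virasoro.Mod K

/-- the value of the functional on words -/
def chi : List ℕ → K
  | [] => 1
  | 0 :: l => -chi l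
  | (_ + 1) :: _ => 0

/-- the functional on words -/
noncomputable def w0T : T K →ₗ[K] K := Finsupp.linearCombination K (chi (K := K))

lemma w0T_single (l : List ℕ) (a : K) : w0T (Finsupp.single l a) = a * chi l := by
  rw [w0T, Finsupp.linearCombination_single, smul_eq_mul]

lemma w0T_cns_zero (x : T K) : w0T (cns 0 x) = -w0T x := by
  induction x using Finsupp.induction_linear with
  | zero => simp
  | add f g hf hg => rw [map_add, map_add, map_add, hf, hg]; ring
  | single w a => rw [cns_single, w0T_single, w0T_single, chi]; ring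

lemma w0T_cns_succ (k : ℕ) (x : T K) : w0T (cns (k + 1) x) = 0 := by
  induction x using Finsupp.induction_linear with
  | zero => simp
  | add f g hf hg => rw [map_add, map_add, hf, hg, add_zero]
  | single w a => rw [cns_single, w0T_single, chi, mul_zero]

lemma w0T_relEl (j k : ℕ) (x : T K) : w0T (relEl j k x) = 0 := by
  unfold relEl
  rw [map_sub, map_sub, map_smul]
  rcases j with _ | j
  · rcases k with _ | k
    · simp
    · rw [w0T_cns_zero, w0T_cns_succ, w0T_cns_succ, zero_add, w0T_cns_succ]
      simp
  · rcases k with _ | k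
    · rw [w0T_cns_zero, w0T_cns_succ, w0T_cns_succ, add_zero, w0T_cns_succ]
      simp
    · rw [w0T_cns_succ, w0T_cns_succ, w0T_cns_succ]
      simp

lemma w0T_TR {z : T K} (hz : z ∈ TR K) : w0T z = 0 := by
  induction hz using Submodule.span_induction with
  | mem y hy =>
    obtain ⟨w, j, k, x, rfl⟩ := hy
    induction w with
    | nil => exact w0T_relEl j k x
    | cons i w ih =>
      change w0T (cns i (cnsAll w (relEl j k x))) = 0
      rcases i with _ | i
      · rw [w0T_cns_zero, ih, neg_zero]
      · rw [w0T_cns_succ]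
  | zero => simp
  | add y z _ _ hy hz => rw [map_add, hy, hz, add_zero]
  | smul a y _ hy => rw [map_smul, hy, smul_zero]

/-- the Whittaker functional -/
noncomputable def wD : Module.Dual K (VM K) := (TR K).liftQ w0T (fun _ hx => w0T_TR hx)

lemma wD_mk (x : T K) : wD ((TR K).mkQ x) = w0T x := rfl

/-- the dual operators -/
noncomputable def ED (n : ℤ) : Module.Dual K (VM K) →ₗ[K] Module.Dual K (VM K) where
  toFun φ := -(φ.comp (opM 0 0 (-n)))
  map_add' φ ψ := by rw [LinearMap.add_comp]; abel
  map_smul' c φ := by rw [LinearMap.smul_comp, smul_neg]; rfl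

lemma ED_apply (n : ℤ) (φ : Module.Dual K (VM K)) (x : VM K) :
    ED n φ x = -φ (opM 0 0 (-n) x) := rfl

lemma opM_comm' (m n : ℤ) (x : VM K) : opM 0 0 m (opM 0 0 n x) =
    opM 0 0 n (opM 0 0 m x) + ((m - n : ℤ) : K) • opM 0 0 (m + n) x := by
  have h := congrArg (fun f : Module.End K (VM K) => f x) (opM_comm (F := K) (c := 0) (h := 0) m n)
  simp only [mul_zero, ite_self, zero_smul, add_zero] at h
  have h1 : opM 0 0 m (opM 0 0 n x) - opM 0 0 n (opM 0 0 m x) =
      ((m - n : ℤ) : K) • opM 0 0 (m + n) x := h
  rw [← h1]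
  abel

/-- the module with a Whittaker vector -/
noncomputable def WD : WM K (Module.Dual K (VM K)) where
  E := ED
  comm m n φ := by
    refine LinearMap.ext fun x => ?_
    rw [LinearMap.add_apply, LinearMap.smul_apply, ED_apply, ED_apply, ED_apply, ED_apply, ED_apply,
      neg_neg, neg_neg, opM_comm' (-n) (-m), map_add, map_smul]
    have e : -n + -m = -(m + n) := by ring
    rw [e]
    push_cast
    simp only [smul_eq_mul]
    ring
  w := wD
  w0 := by
    intro h
    have h1 : wD (K := K) ((TR K).mkQ (Finsupp.single [] 1)) = 0 := by rw [h]; rfl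
    rw [wD_mk, w0T_single, chi, one_mul] at h1
    exact one_ne_zero h1
  e1 := by
    refine LinearMap.ext fun y => ?_
    obtain ⟨x, rfl⟩ := (TR K).mkQ_surjective y
    rw [ED_apply, opM_mk]
    have h : act (0 : K) 0 (-1) = cns 0 := by
      have := act_neg (c := (0 : K)) (h := 0) 0
      simpa using this
    rw [h, wD_mk, wD_mk, w0T_cns_zero, neg_neg]
  e2 n hn := by
    refine LinearMap.ext fun y => ?_
    obtain ⟨x, rfl⟩ := (TR K).mkQ_surjective y
    obtain ⟨k, rfl⟩ : ∃ k : ℕ, n = (k : ℤ) + 1 + 1 := ⟨(n - 2).toNat, by omega⟩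
    rw [ED_apply, opM_mk]
    have h : act (0 : K) 0 (-((k : ℤ) + 1 + 1)) = cns (k + 1) := by
      have := act_neg (c := (0 : K)) (h := 0) (k + 1)
      push_cast at this
      exact this
    rw [h, wD_mk, w0T_cns_succ, neg_zero]
    rfl

end Q65.WP
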