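import Pool.Agent.Q65.WP.Rep

/-!
# Faithfulness

The symbol of a nonzero combination of sorted words acts nontrivially.
-/

set_option autoImplicit false

namespace Q65.WP

open MvPolynomial

universe u v

namespace WM

variable {K : Type u} {M : Type v} [Field K] [AddCommGroup M] [Module K M] (W : WM K M)

lemma E_fw_G (l : List ℕ) : ∀ n : ℤ, 0 < n → W.E n (W.fw l) ∈ W.G (l.length + 1) := by
  induction l with
  | nil =>
    intro n hn
    rcases eq_or_lt_of_le (show (1 : ℤ) ≤ n from hn) with h1 | h1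
    · rw [← h1, fw_nil, W.e1, ← fw_nil]
      exact W.fw_G (by simp)
    · rw [fw_nil, W.e2 n h1]
      exact Submodule.zero_mem _
  | cons a l ih =>
    intro n hn
    rw [fw_cons, W.comm]
    refine Submodule.add_mem _ (W.cons_G a (by simp) (ih n hn)) (Submodule.smul_mem _ _ ?_)
    rcases le_or_gt (n + -(a : ℤ)) 0 with h | h
    · have e : n + -(a : ℤ) = -((a - n.toNat : ℕ) : ℤ) := by omega
      rw [e, ← fw_cons]
      exact W.fw_G (by simp)
    · exact W.G_mono (by simp) (ih _ h)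

lemma E_G {n : ℤ} (hn : 0 < n) {k : ℕ} {x : M} (hx : x ∈ W.G k) : W.E n x ∈ W.G k :=
  W.Sp_map (W.E n) (fun l hl => W.G_mono (by omega) (W.E_fw_G l n hn)) hx

lemma hdeg {k : ℕ} {p : MvPolynomial ℕ K} (hp : p.IsHomogeneous k) {s : ℕ →₀ ℕ}
    (hs : s ∈ p.support) : s.degree = k := by
  have h := hp (mem_support_iff.1 hs)
  rw [Finsupp.degree_eq_weight_one]
  exact h

/-- `p` is the symbol of `v` in degree `k` -/
def R (k : ℕ) (v : M) (p : MvPolynomial ℕ K) : Prop := p.IsHomogeneous k ∧ v - W.Phi p ∈ W.G k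

lemma Phi_G {k : ℕ} {p : MvPolynomial ℕ K} (hp : p.IsHomogeneous k) : W.Phi p ∈ W.G (k + 1) := by
  rw [W.Phi_eq]
  refine Submodule.sum_mem _ fun s hs => Submodule.smul_mem _ _ (W.fw_G ?_)
  rw [srt_length, hdeg hp hs]
  exact Nat.lt_succ_self k

lemma R.mem {k : ℕ} {v : M} {p : MvPolynomial ℕ K} (h : W.R k v p) : v ∈ W.G (k + 1) := by
  have := Submodule.add_mem _ (W.G_mono (Nat.le_succ k) h.2) (W.Phi_G h.1)
  rwa [sub_add_cancel] at this

lemma R.add {k : ℕ} {v v' : M} {p p' : MvPolynomial ℕ K} (h : W.R k v p) (h' : W.R k v' p') :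
    W.R k (v + v') (p + p') := by
  refine ⟨h.1.add h'.1, ?_⟩
  rw [map_add, add_sub_add_comm]
  exact Submodule.add_mem _ h.2 h'.2

lemma R.smul {k : ℕ} {v : M} {p : MvPolynomial ℕ K} (c : K) (h : W.R k v p) :
    W.R k (c • v) (c • p) := by
  refine ⟨?_, ?_⟩
  · have := (isHomogeneous_C ℕ c).mul h.1
    rwa [zero_add, ← smul_eq_C_mul] at this
  · rw [map_smul, ← smul_sub]
    exact Submodule.smul_mem _ _ h.2

lemma R.sum {k : ℕ} {ι : Type*} (s : Finset ι) (v : ι → M) (p : ι → MvPolynomial ℕ K)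
    (h : ∀ i ∈ s, W.R k (v i) (p i)) : W.R k (∑ i ∈ s, v i) (∑ i ∈ s, p i) := by
  classical
  induction s using Finset.induction_on with
  | empty =>
    refine ⟨?_, ?_⟩
    · rw [Finset.sum_empty]; exact isHomogeneous_zero _ _ _
    · rw [Finset.sum_empty, Finset.sum_empty, map_zero, sub_zero]; exact Submodule.zero_mem _
  | insert a s ha ih =>
    rw [Finset.sum_insert ha, Finset.sum_insert ha]
    exact R.add W (h a (by simp)) (ih fun i hi => h i (by simp [hi]))

lemma X_mul_monomial (a : ℕ) (s : ℕ →₀ ℕ) (c : K) :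
    (X a : MvPolynomial ℕ K) * monomial s c = monomial (s + Finsupp.single a 1) c := by
  rw [X, monomial_mul, one_mul, add_comm]

/-- creation operators multiply symbols -/
lemma RA {k : ℕ} {v : M} {p : MvPolynomial ℕ K} (a : ℕ) (h : W.R k v p) :
    W.R (k + 1) (W.E (-(a : ℤ)) v) (X a * p) := by
  refine ⟨?_, ?_⟩
  · have := (isHomogeneous_X K a).mul h.1
    rwa [add_comm] at this
  · have h1 : W.E (-(a : ℤ)) (W.Phi p) - W.Phi (X a * p) ∈ W.G (k + 1) := by
      have e1 : X a * p = ∑ s ∈ p.support, monomial (s + Finsupp.single a 1) (p.coeff s) := by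
        conv_lhs => rw [p.as_sum, Finset.mul_sum]
        exact Finset.sum_congr rfl fun s _ => X_mul_monomial a s _
      rw [e1, map_sum, W.Phi_eq, map_sum, ← Finset.sum_sub_distrib]
      refine Submodule.sum_mem _ fun s hs => ?_
      rw [Phi_monomial, map_smul, ← smul_sub, ← fw_cons]
      refine Submodule.smul_mem _ _ (W.Sp_mono ?_ (W.perm (srt_cons s a)))
      rintro m ⟨hm, -⟩
      rw [List.length_cons, srt_length, hdeg h.1 hs] at hm
      exact hm
    have h2 := Submodule.add_mem _ (W.cons_G a le_rfl h.2) h1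
    rwa [map_sub, sub_add_sub_cancel] at h2

/-- the commutative word -/
noncomputable def XL (l : List ℕ) : MvPolynomial ℕ K := (l.map X).prod

lemma R_fw (l : List ℕ) : W.R l.length (W.fw l) (XL l) := by
  induction l with
  | nil =>
    refine ⟨isHomogeneous_one _ _, ?_⟩
    have h : W.Phi (XL []) = W.fw [] := by
      have : (XL [] : MvPolynomial ℕ K) = monomial 0 1 := by simp [XL]
      rw [this, Phi_monomial, one_smul]
      congr 1
      simp [srt]
    rw [h, sub_self]
    exact Submodule.zero_mem _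
  | cons a l ih =>
    rw [fw_cons]
    have : (XL (a :: l) : MvPolynomial ℕ K) = X a * XL l := by simp [XL]
    rw [this]
    exact W.RA a ih

lemma XL_eq (l : List ℕ) : (XL l : MvPolynomial ℕ K) =
    monomial (Multiset.toFinsupp (l : Multiset ℕ)) 1 := by
  induction l with
  | nil => simp [XL]
  | cons a l ih =>
    have h1 : (XL (a :: l) : MvPolynomial ℕ K) = X a * XL l := by simp [XL]
    rw [h1, ih, X_mul_monomial]
    congr 1
    rw [← Multiset.cons_coe, ← Multiset.singleton_add, map_add, Multiset.toFinsupp_singleton,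
      add_comm]

lemma XL_srt (s : ℕ →₀ ℕ) : (XL (srt s) : MvPolynomial ℕ K) = monomial s 1 := by
  rw [XL_eq, srt_coe, Finsupp.toMultiset_toFinsupp]

/-- the derivation giving the symbol of `e_n`, `n > 0` -/
noncomputable def D (n : ℕ) : Derivation K (MvPolynomial ℕ K) (MvPolynomial ℕ K) :=
  mkDerivation K fun a => if n ≤ a then C (-((a : K) + n)) * X (a - n) else 0

lemma D_X (n a : ℕ) : D n (X a : MvPolynomial ℕ K) =
    if n ≤ a then C (-((a : K) + n)) * X (a - n) else 0 := mkDerivation_X _ _ _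

/-- the symbol of `e_n`, `n > 0` -/
noncomputable def Dt (n : ℕ) (p : MvPolynomial ℕ K) : MvPolynomial ℕ K :=
  D n p + (if n = 1 then p else 0)

lemma Dt_add (n : ℕ) (p q : MvPolynomial ℕ K) : Dt n (p + q) = Dt n p + Dt n q := by
  unfold Dt
  split_ifs
  · rw [map_add]; ring
  · rw [map_add]; ring

lemma Dt_smul (n : ℕ) (c : K) (p : MvPolynomial ℕ K) : Dt n (c • p) = c • Dt n p := by
  unfold Dt
  split_ifs
  · rw [Derivation.map_smul, smul_add]
  · rw [Derivation.map_smul, add_zero, add_zero]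

lemma Dt_zero (n : ℕ) : Dt n (0 : MvPolynomial ℕ K) = 0 := by
  unfold Dt
  simp

lemma Dt_sum (n : ℕ) {ι : Type*} (s : Finset ι) (p : ι → MvPolynomial ℕ K) :
    Dt n (∑ i ∈ s, p i) = ∑ i ∈ s, Dt n (p i) := by
  classical
  induction s using Finset.induction_on with
  | empty => simp [Dt_zero]
  | insert a s ha ih => rw [Finset.sum_insert ha, Finset.sum_insert ha, Dt_add, ih]

lemma Dt_mul (n : ℕ) (p q : MvPolynomial ℕ K) : Dt n (p * q) = p * Dt n q + D n p * q := by
  unfold Dt
  rw [Derivation.leibniz, smul_eq_mul, smul_eq_mul]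
  split_ifs <;> ring

lemma RB_fw (l : List ℕ) : ∀ n : ℕ, 0 < n → W.R l.length (W.E n (W.fw l)) (Dt n (XL l)) := by
  induction l with
  | nil =>
    intro n hn
    have h0 := W.R_fw []
    have h1 : (Dt n (XL []) : MvPolynomial ℕ K) = if n = 1 then XL [] else 0 := by
      simp [Dt, XL]
    rw [h1]
    by_cases h : n = 1
    · subst h
      rw [if_pos rfl]
      have : W.E ((1 : ℕ) : ℤ) (W.fw []) = W.fw [] := W.e1
      rw [this]
      exact h0
    · rw [if_neg h]
      have : W.E (n : ℤ) (W.fw []) = 0 := W.e2 n (by omega)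
      rw [this]
      refine ⟨isHomogeneous_zero _ _ _, ?_⟩
      rw [map_zero, sub_zero]
      exact Submodule.zero_mem _
  | cons a l ih =>
    intro n hn
    have hX : (XL (a :: l) : MvPolynomial ℕ K) = X a * XL l := by simp [XL]
    rw [hX, Dt_mul, fw_cons, W.comm, List.length_cons]
    refine R.add W (W.RA a (ih n hn)) ?_
    rw [D_X]
    by_cases h : n ≤ a
    · rw [if_pos h]
      have e : (n : ℤ) + -(a : ℤ) = -((a - n : ℕ) : ℤ) := by omega
      rw [e, mul_assoc, ← smul_eq_C_mul]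
      have h2 : ((-(a : ℤ) - n : ℤ) : K) = -((a : K) + n) := by push_cast; ring
      rw [h2]
      exact R.smul W _ (W.RA _ (W.R_fw l))
    · rw [if_neg h, zero_mul]
      refine ⟨isHomogeneous_zero _ _ _, ?_⟩
      rw [map_zero, sub_zero]
      exact Submodule.smul_mem _ _ (W.E_fw_G l _ (by omega))

lemma RB {k : ℕ} {v : M} {p : MvPolynomial ℕ K} {n : ℕ} (hn : 0 < n) (h : W.R k v p) :
    W.R k (W.E n v) (Dt n p) := by
  have h1 : W.R k (W.E n (W.Phi p)) (Dt n p) := by
    have e1 : Dt n p = ∑ s ∈ p.support, p.coeff s • Dt n (XL (srt s)) := by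
      conv_lhs => rw [p.as_sum, Dt_sum]
      refine Finset.sum_congr rfl fun s _ => ?_
      rw [XL_srt, ← Dt_smul, smul_monomial, smul_eq_mul, mul_one]
    rw [e1, W.Phi_eq, map_sum]
    refine R.sum W _ _ _ fun s hs => ?_
    rw [map_smul]
    refine R.smul W _ ?_
    have := W.RB_fw (srt s) n hn
    rwa [srt_length, hdeg h.1 hs] at this
  refine ⟨h1.1, ?_⟩
  have h2 := Submodule.add_mem _ (W.E_G (n := n) (by exact_mod_cast hn) h.2) h1.2
  rwa [map_sub, sub_add_sub_cancel] at h2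

/-- the action of a word -/
def wd : List ℤ → M → M
  | [], v => v
  | n :: m, v => W.E n (wd m v)

/-- the symbol of a word -/
noncomputable def gr : List ℤ → MvPolynomial ℕ K → MvPolynomial ℕ K
  | [], p => p
  | n :: m, p => if n ≤ 0 then X (-n).toNat * gr m p else Dt n.toNat (gr m p)

/-- number of nonpositive letters -/
def nl (m : List ℤ) : ℕ := m.countP (fun n => decide (n ≤ 0))

/-- number of positive letters -/
def pl (m : List ℤ) : ℕ := m.countP (fun n => decide (0 < n))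

lemma nl_nonpos {n : ℤ} (h : n ≤ 0) (m : List ℤ) : nl (n :: m) = nl m + 1 := by
  rw [nl, List.countP_cons_of_pos (by simpa using h)]; rfl

lemma nl_pos {n : ℤ} (h : 0 < n) (m : List ℤ) : nl (n :: m) = nl m := by
  rw [nl, List.countP_cons_of_neg (by simpa using h)]; rfl

lemma pl_nonpos {n : ℤ} (h : n ≤ 0) (m : List ℤ) : pl (n :: m) = pl m := by
  rw [pl, List.countP_cons_of_neg (by simpa using h)]; rfl

lemma pl_pos {n : ℤ} (h : 0 < n) (m : List ℤ) : pl (n :: m) = pl m + 1 := by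
  rw [pl, List.countP_cons_of_pos (by simpa using h)]; rfl

lemma RW {k : ℕ} {v : M} {p : MvPolynomial ℕ K} (h : W.R k v p) (m : List ℤ) :
    W.R (k + nl m) (W.wd m v) (gr m p) := by
  induction m with
  | nil => exact h
  | cons n m ih =>
    rw [wd, gr]
    by_cases hn : n ≤ 0
    · rw [if_pos hn, nl_nonpos hn, ← add_assoc]
      have := W.RA (-n).toNat ih
      have e : -(((-n).toNat : ℕ) : ℤ) = n := by omega
      rwa [e] at this
    · rw [if_neg hn, nl_pos (not_le.1 hn)]
      have := W.RB (n := n.toNat) (by omega) ih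
      have e : ((n.toNat : ℕ) : ℤ) = n := by omega
      rwa [e] at this

/-- relabelling of letters -/
def th (N : ℕ) (n : ℤ) : ℕ := if n ≤ 0 then (-n).toNat else N - n.toNat

lemma gr_eq [CharZero K] (N B d : ℕ) (hN : B < N) (m : List ℤ) (hm : ∀ n ∈ m, n.natAbs ≤ B)
    (hd : pl m ≤ d) : ∃ κ : K, κ ≠ 0 ∧ ∃ h : MvPolynomial ℕ K,
      gr m (X N ^ d) = C κ * X N ^ (d - pl m) * XL (m.map (th N)) + X N ^ (d - pl m + 1) * h := by
  induction m with
  | nil =>
    refine ⟨1, one_ne_zero, 0, ?_⟩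
    simp [gr, pl, XL]
  | cons n m ih =>
    have hm' : ∀ n ∈ m, n.natAbs ≤ B := fun a ha => hm a (by simp [ha])
    have hn := hm n (by simp)
    have hXL : (XL ((n :: m).map (th N)) : MvPolynomial ℕ K) = X (th N n) * XL (m.map (th N)) := by
      simp [XL]
    rw [gr, hXL]
    by_cases h0 : n ≤ 0
    · rw [pl_nonpos h0] at hd ⊢
      obtain ⟨κ, hκ, h, he⟩ := ih hm' hd
      refine ⟨κ, hκ, X (-n).toNat * h, ?_⟩
      rw [if_pos h0, he, th, if_pos h0]
      ring
    · rw [pl_pos (not_le.1 h0)] at hd ⊢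
      obtain ⟨κ, hκ, h, he⟩ := ih hm' (by omega)
      obtain ⟨j, hj⟩ : ∃ j, d - pl m = j + 1 := ⟨d - pl m - 1, by omega⟩
      have hj' : d - (pl m + 1) = j := by omega
      set ν := n.toNat with hν
      have hνN : ν ≤ N := by omega
      refine ⟨-(κ * ((j + 1 : ℕ) : K) * ((N : K) + ν)), ?_, ?_⟩
      · rw [neg_ne_zero]
        refine mul_ne_zero (mul_ne_zero hκ (Nat.cast_ne_zero.2 (Nat.succ_ne_zero j))) ?_
        have : ((N + ν : ℕ) : K) ≠ 0 := Nat.cast_ne_zero.2 (by omega)
        exact_mod_cast this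
      · refine ⟨C κ * Dt ν (XL (m.map (th N))) + ((j + 2 : ℕ) : MvPolynomial ℕ K) * D ν (X N) * h +
          X N * Dt ν h, ?_⟩
        rw [if_neg h0, he, hj, hj', Dt_add, th, if_neg h0, ← hν]
        have hDX : D ν (X N : MvPolynomial ℕ K) = C (-((N : K) + ν)) * X (N - ν) := by
          rw [D_X, if_pos hνN]
        have hp1 : D ν ((X N : MvPolynomial ℕ K) ^ (j + 1)) =
            ((j + 1 : ℕ) : MvPolynomial ℕ K) * X N ^ j * D ν (X N) := by
          rw [Derivation.leibniz_pow, Nat.add_sub_cancel, smul_eq_mul, nsmul_eq_mul, mul_assoc]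
        have hp2 : D ν ((X N : MvPolynomial ℕ K) ^ (j + 1 + 1)) =
            ((j + 2 : ℕ) : MvPolynomial ℕ K) * X N ^ (j + 1) * D ν (X N) := by
          rw [Derivation.leibniz_pow, Nat.add_sub_cancel, smul_eq_mul, nsmul_eq_mul, mul_assoc]
        rw [mul_assoc (C κ), ← smul_eq_C_mul (a := κ), Dt_smul, smul_eq_C_mul, Dt_mul, Dt_mul, hp1,
          hp2, hDX]
        simp only [C_neg, C_mul, C_add, map_natCast]
        push_cast
        ring

/-- short vectors come from polynomials of small degree -/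
lemma G_Phi : ∀ (n : ℕ) (x : M), x ∈ W.G n →
    ∃ q : MvPolynomial ℕ K, (∀ s ∈ q.support, s.degree < n) ∧ W.Phi q = x := by
  intro n
  induction n with
  | zero =>
    intro x hx
    rw [W.G_zero, Submodule.mem_bot] at hx
    exact ⟨0, by simp, by rw [map_zero, hx]⟩
  | succ n ih =>
    intro x hx
    refine Submodule.span_induction
      (p := fun x _ => ∃ q : MvPolynomial ℕ K, (∀ s ∈ q.support, s.degree < n + 1) ∧ W.Phi q = x)
      ?_ ?_ ?_ ?_ hx
    · rintro x ⟨l, hl, rfl⟩
      have h1 := W.R_fw l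
      obtain ⟨q, hq, hqe⟩ := ih _ (W.G_mono (Nat.lt_succ_iff.1 hl) h1.2)
      refine ⟨XL l + q, ?_, ?_⟩
      · intro s hs
        rcases Finset.mem_union.1 (support_add hs) with h | h
        · rw [hdeg h1.1 h]
          exact hl
        · exact (hq s h).trans (Nat.lt_succ_self n)
      · rw [map_add, hqe, add_sub_cancel]
    · exact ⟨0, by simp, map_zero _⟩
    · rintro x y _ _ ⟨q, hq, rfl⟩ ⟨q', hq', rfl⟩
      refine ⟨q + q', ?_, map_add _ _ _⟩
      intro s hs
      rcases Finset.mem_union.1 (support_add hs) with h | h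
      · exact hq s h
      · exact hq' s h
    · rintro c x _ ⟨q, hq, rfl⟩
      exact ⟨c • q, fun s hs => hq s (support_smul hs), map_smul _ _ _⟩

lemma Phi_not_G [CharZero K] {k : ℕ} {p : MvPolynomial ℕ K} (hp : p.IsHomogeneous k)
    (h0 : p ≠ 0) : W.Phi p ∉ W.G k := by
  intro h
  obtain ⟨q, hq, hqe⟩ := W.G_Phi k _ h
  have h1 : p - q = 0 := by
    by_contra hne
    refine W.Phi_inj hne ?_
    rw [map_sub, hqe, sub_self]
  have h2 : p = q := sub_eq_zero.1 h1
  obtain ⟨s, hs⟩ := support_nonempty.2 h0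
  have h3 := hdeg hp hs
  rw [h2] at hs
  have := hq s hs
  omega

lemma coeff_X_pow_mul_zero {N j : ℕ} (hj : 0 < j) {t : ℕ →₀ ℕ} (ht : t N = 0)
    (g : MvPolynomial ℕ K) : coeff t (X N ^ j * g) = 0 := by
  obtain ⟨i, rfl⟩ : ∃ i, j = i + 1 := ⟨j - 1, by omega⟩
  rw [pow_succ', mul_assoc, coeff_X_mul', if_neg]
  rw [Finsupp.mem_support_iff]
  exact fun h => h ht

lemma th_inj {N B : ℕ} (hN : 2 * B < N) {a b : ℤ} (ha : a.natAbs ≤ B) (hb : b.natAbs ≤ B)
    (h : th N a = th N b) : a = b := by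
  unfold th at h
  split_ifs at h <;> omega

lemma th_ne {N B : ℕ} (hN : 2 * B < N) {a : ℤ} (ha : a.natAbs ≤ B) : th N a ≠ N := by
  unfold th
  split_ifs <;> omega

lemma map_th_inj {N B : ℕ} (hN : 2 * B < N) {l l' : List ℤ} (hl : ∀ a ∈ l, a.natAbs ≤ B)
    (hl' : ∀ a ∈ l', a.natAbs ≤ B) (hs : l.Pairwise (· ≤ ·)) (hs' : l'.Pairwise (· ≤ ·))
    (h : Multiset.toFinsupp ((l.map (th N) : List ℕ) : Multiset ℕ) =
      Multiset.toFinsupp ((l'.map (th N) : List ℕ) : Multiset ℕ)) : l = l' := by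
  have h1 : (l.map (th N)).Perm (l'.map (th N)) := by
    rw [← Multiset.coe_eq_coe]
    exact Multiset.toFinsupp.injective h
  -- recover the letters
  set g : ℕ → ℤ := fun n => if n ≤ B then -(n : ℤ) else (N : ℤ) - n with hg
  have hgth : ∀ a : ℤ, a.natAbs ≤ B → g (th N a) = a := by
    intro a ha
    rw [hg]
    simp only [th]
    split_ifs <;> omega
  have h2 : ∀ m : List ℤ, (∀ a ∈ m, a.natAbs ≤ B) → (m.map (th N)).map g = m := by
    intro m hm
    rw [List.map_map]
    conv_rhs => rw [← List.map_id m]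
    refine List.map_congr_left fun a ha => ?_
    rw [Function.comp_apply, hgth a (hm a ha), id]
  have h3 := h1.map g
  rw [h2 l hl, h2 l' hl'] at h3
  exact h3.eq_of_pairwise (fun a b _ _ h1 h2 => le_antisymm h1 h2) hs hs'

/-- faithfulness on combinations of sorted words -/
theorem faithful [CharZero K] (c : List ℤ →₀ K) (hc : c ≠ 0)
    (hs : ∀ m ∈ c.support, m.Pairwise (· ≤ ·)) :
    ∃ v ∈ W.Top, ∑ m ∈ c.support, c m • W.wd m v ≠ 0 := by
  obtain ⟨m0, hm0, hmax⟩ := Finset.exists_max_image c.support nl (Finsupp.support_nonempty_iff.2 hc)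
  set n0 := nl m0 with hn0
  set T := c.support.filter (fun m => nl m = n0) with hT
  obtain ⟨m1, hm1, hmax1⟩ := Finset.exists_max_image T pl ⟨m0, Finset.mem_filter.2 ⟨hm0, rfl⟩⟩
  set d := pl m1 with hd
  obtain ⟨B, hB⟩ : ∃ B : ℕ, ∀ m ∈ c.support, ∀ a ∈ m, a.natAbs ≤ B := by
    refine ⟨c.support.sup (fun m => (m.map Int.natAbs).sum), fun m hm a ha => ?_⟩
    refine le_trans ?_ (Finset.le_sup (f := fun m : List ℤ => (m.map Int.natAbs).sum) hm)
    exact List.single_le_sum (by simp) _ (List.mem_map_of_mem ha)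
  set N := 2 * B + 1 with hN
  have hTs : ∀ m ∈ T, m ∈ c.support := fun m hm => (Finset.mem_filter.1 hm).1
  set v0 := W.fw (List.replicate d N) with hv0
  have hv0R : W.R d v0 (X N ^ d) := by
    have := W.R_fw (List.replicate d N)
    rw [List.length_replicate] at this
    have e : (XL (List.replicate d N) : MvPolynomial ℕ K) = X N ^ d := by simp [XL]
    rwa [e] at this
  refine ⟨v0, W.mem_Sp trivial, ?_⟩
  set Q : MvPolynomial ℕ K := ∑ m ∈ T, c m • gr m (X N ^ d) with hQ
  have h1 : W.R (d + n0) (∑ m ∈ T, c m • W.wd m v0) Q := by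
    refine R.sum W _ _ _ fun m hm => R.smul W _ ?_
    have := W.RW hv0R m
    rwa [(Finset.mem_filter.1 hm).2] at this
  have h2 : ∑ m ∈ c.support.filter (fun m => ¬ nl m = n0), c m • W.wd m v0 ∈ W.G (d + n0) := by
    refine Submodule.sum_mem _ fun m hm => Submodule.smul_mem _ _ ?_
    rw [Finset.mem_filter] at hm
    have h3 := hmax m hm.1
    refine W.G_mono ?_ (R.mem W (W.RW hv0R m))
    omega
  have hQ0 : Q ≠ 0 := by
    intro h0
    set t : ℕ →₀ ℕ := Multiset.toFinsupp ((m1.map (th N) : List ℕ) : Multiset ℕ) with ht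
    have htN : t N = 0 := by
      rw [ht, Multiset.toFinsupp_apply, Multiset.count_eq_zero, Multiset.mem_coe]
      intro h
      obtain ⟨a, ha, hae⟩ := List.mem_map.1 h
      exact th_ne (by omega) (hB m1 (hTs m1 hm1) a ha) hae
    have hcoef : ∀ m ∈ T, m ≠ m1 → coeff t (c m • gr m (X N ^ d : MvPolynomial ℕ K)) = 0 := by
      intro m hm hne
      obtain ⟨κ, hκ, h, he⟩ := gr_eq (K := K) N B d (by omega) m (hB m (hTs m hm)) (hmax1 m hm)
      rw [coeff_smul, he, coeff_add, coeff_X_pow_mul_zero (Nat.succ_pos _) htN, add_zero]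
      rcases Nat.eq_zero_or_pos (d - pl m) with h3 | h3
      · rw [h3, pow_zero, mul_one, coeff_C_mul, XL_eq, coeff_monomial, if_neg, mul_zero, smul_zero]
        intro h4
        exact hne (map_th_inj (by omega) (hB m (hTs m hm)) (hB m1 (hTs m1 hm1))
          (hs m (hTs m hm)) (hs m1 (hTs m1 hm1)) h4)
      · rw [mul_assoc, coeff_C_mul, coeff_X_pow_mul_zero h3 htN, mul_zero, smul_zero]
    have hcoef1 : coeff t (c m1 • gr m1 (X N ^ d : MvPolynomial ℕ K)) ≠ 0 := by
      obtain ⟨κ, hκ, h, he⟩ := gr_eq (K := K) N B d (by omega) m1 (hB m1 (hTs m1 hm1)) le_rfl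
      rw [coeff_smul, he, coeff_add, coeff_X_pow_mul_zero (Nat.succ_pos _) htN, add_zero, ← hd,
        Nat.sub_self, pow_zero, mul_one, coeff_C_mul, XL_eq, coeff_monomial, if_pos rfl, mul_one,
        smul_eq_mul]
      exact mul_ne_zero (Finsupp.mem_support_iff.1 (hTs m1 hm1)) hκ
    apply hcoef1
    have h5 : coeff t Q = 0 := by rw [h0, coeff_zero]
    rw [hQ, coeff_sum, Finset.sum_eq_single m1 hcoef (fun h => (h hm1).elim)] at h5
    exact h5
  intro hzero
  apply W.Phi_not_G h1.1 hQ0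
  have h6 : ∑ m ∈ T, c m • W.wd m v0 = -∑ m ∈ c.support.filter (fun m => ¬ nl m = n0),
      c m • W.wd m v0 := by
    rw [eq_neg_iff_add_eq_zero, Finset.sum_filter_add_sum_filter_not, hzero]
  have h8 : (∑ m ∈ T, c m • W.wd m v0) ∈ W.G (d + n0) := by
    rw [h6]
    exact Submodule.neg_mem _ h2
  have h9 := Submodule.sub_mem _ h8 h1.2
  rwa [sub_sub_cancel] at h9

end WM

end Q65.WP
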