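import Pool.Agent.Q65.WP.Faith
import Pool.Agent.Q65.WP.Exist
import Pool.Agent.Q2.WA.Witt

/-!
# A faithful simple module over the enveloping algebra of the Witt algebra
-/

set_option autoImplicit false

namespace Q65.WP

open Q2.WA LaurentPolynomial

universe u

attribute [local instance 100] LieRing.ofAssociativeRing

section span

variable (K : Type u) [Field K]

/-- the enveloping algebra of the Witt algebra -/
abbrev UW : Type u := UniversalEnvelopingAlgebra K (Witt K)

variable {K}

lemma witt_apply_T (m k : ℤ) : (witt m : Witt K) (T k) = (k : K) • T (k + m) := by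
  rw [witt_T, witt_T1, ← T_add]
  congr 2
  ring

lemma ext_T1 {D E : Witt K} (h : D (T 1 : LaurentPolynomial K) = E (T 1 : LaurentPolynomial K)) :
    D = E := by
  apply Derivation.ext
  intro f
  rw [witt_apply D, witt_apply E, h]

lemma lie_witt (m n : ℤ) : ⁅(witt m : Witt K), (witt n : Witt K)⁆ =
    ((n - m : ℤ) : K) • (witt (m + n) : Witt K) := by
  apply ext_T1
  rw [Derivation.commutator_apply, witt_T1, witt_T1, witt_apply_T, witt_apply_T,
    Derivation.smul_apply, witt_T1]
  have e1 : n + 1 + m = m + n + 1 := by ring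
  have e2 : m + 1 + n = m + n + 1 := by ring
  rw [e1, e2]
  push_cast
  module

lemma witt_span (D : Witt K) : D ∈ Submodule.span K (Set.range (witt : ℤ → Witt K)) := by
  have h2 : ∀ f : LaurentPolynomial K, (f • ldd K : Witt K) ∈
      Submodule.span K (Set.range (witt : ℤ → Witt K)) := by
    intro f
    induction f using lau_induction with
    | hadd f g hf hg => rw [add_smul]; exact Submodule.add_mem _ hf hg
    | hm c n =>
      have : (c • T n : LaurentPolynomial K) • ldd K = c • (witt (n - 1) : Witt K) := by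
        rw [witt, sub_add_cancel, smul_assoc]
      rw [this]
      exact Submodule.smul_mem _ _ (Submodule.subset_span ⟨_, rfl⟩)
  have h3 : D = (D (T 1)) • ldd K := by
    apply ext_T1
    have h : ldd K (T 1) = 1 := by
      change lder (T 1) = 1
      rw [lder_T]
      simp
    rw [Derivation.smul_apply, h, smul_eq_mul, mul_one]
  rw [h3]
  exact h2 _

/-- generators of the enveloping algebra -/
noncomputable def gU (n : ℤ) : UW K := UniversalEnvelopingAlgebra.ι K (witt n)

lemma gU_comm (m n : ℤ) : (gU m : UW K) * gU n - gU n * gU m = ((n - m : ℤ) : K) • gU (m + n) := by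
  have h1 : ⁅(gU m : UW K), gU n⁆ = gU m * gU n - gU n * gU m :=
    LieRing.of_associative_ring_bracket _ _
  have h2 : ⁅(gU m : UW K), gU n⁆ = UniversalEnvelopingAlgebra.ι K ⁅(witt m : Witt K), (witt n : Witt K)⁆ :=
    (LieHom.map_lie _ _ _).symm
  rw [← h1, h2, lie_witt, map_smul]
  rfl

/-- words in the enveloping algebra -/
noncomputable def wU (m : List ℤ) : UW K := (m.map gU).prod

lemma wU_cons (n : ℤ) (m : List ℤ) : (wU (n :: m) : UW K) = gU n * wU m := by
  simp [wU]

lemma wU_append (m m' : List ℤ) : (wU (m ++ m') : UW K) = wU m * wU m' := by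
  simp [wU]

lemma U_ind {P : UW K → Prop} (halg : ∀ a : K, P (algebraMap K _ a)) (hL : ∀ n, P (gU n))
    (hadd : ∀ x y, P x → P y → P (x + y)) (hmul : ∀ x y, P x → P y → P (x * y))
    (u : UW K) : P u := by
  let S : Subalgebra K (UW K) :=
    { carrier := {u | P u}
      mul_mem' := fun {x y} hx hy => hmul x y hx hy
      add_mem' := fun {x y} hx hy => hadd x y hx hy
      algebraMap_mem' := halg }
  have hι : ∀ x : Witt K, UniversalEnvelopingAlgebra.ι K x ∈ S := by
    intro x
    have hx := witt_span x
    induction hx using Submodule.span_induction with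
    | mem y hy => obtain ⟨n, rfl⟩ := hy; exact hL n
    | zero => rw [map_zero]; exact zero_mem _
    | add y z _ _ hy hz => rw [map_add]; exact add_mem hy hz
    | smul a y _ hy => rw [map_smul]; exact S.smul_mem hy a
  let f : Witt K →ₗ⁅K⁆ S :=
    { toFun := fun x => ⟨UniversalEnvelopingAlgebra.ι K x, hι x⟩
      map_add' := fun x y => Subtype.ext (map_add _ _ _)
      map_smul' := fun a x => Subtype.ext (map_smul _ _ _)
      map_lie' := fun {x y} => Subtype.ext (LieHom.map_lie _ _ _) }
  let g : UW K →ₐ[K] S := UniversalEnvelopingAlgebra.lift K f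
  have hg : ∀ x, g (UniversalEnvelopingAlgebra.ι K x) = f x :=
    fun x => UniversalEnvelopingAlgebra.lift_ι_apply K f x
  have h1 : S.val.comp g = AlgHom.id K (UW K) := by
    apply UniversalEnvelopingAlgebra.hom_ext
    ext x
    change ((g (UniversalEnvelopingAlgebra.ι K x) : S) : UW K) = UniversalEnvelopingAlgebra.ι K x
    rw [hg]
    rfl
  have h3 : ((g u : S) : UW K) = u := DFunLike.congr_fun h1 u
  rw [← h3]
  exact (g u).2

/-- the span of the words satisfying `P` -/
noncomputable def SU (P : List ℤ → Prop) : Submodule K (UW K) :=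
  Submodule.span K (wU '' {m | P m})

lemma mem_SU {P : List ℤ → Prop} {m : List ℤ} (h : P m) : (wU m : UW K) ∈ SU P :=
  Submodule.subset_span ⟨m, h, rfl⟩

lemma SU_mono {P Q : List ℤ → Prop} (h : ∀ m, P m → Q m) : (SU P : Submodule K (UW K)) ≤ SU Q :=
  Submodule.span_mono (Set.image_mono fun m hm => h m hm)

lemma gU_SU {P Q : List ℤ → Prop} (n : ℤ) (h : ∀ m, P m → Q (n :: m)) {x : UW K}
    (hx : x ∈ SU P) : gU n * x ∈ (SU Q : Submodule K (UW K)) := by
  have : (SU P : Submodule K (UW K)) ≤ (SU Q).comap (LinearMap.mulLeft K (gU n)) := by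
    refine Submodule.span_le.2 ?_
    rintro _ ⟨m, hm, rfl⟩
    change (gU n * wU m : UW K) ∈ SU Q
    rw [← wU_cons]
    exact mem_SU (h m hm)
  exact this hx

lemma permU {l l' : List ℤ} (h : l.Perm l') :
    (wU l : UW K) - wU l' ∈ (SU (fun m => m.length < l.length) : Submodule K (UW K)) := by
  induction h with
  | nil => simp
  | @cons a l₁ l₂ h ih =>
    rw [wU_cons, wU_cons, ← mul_sub]
    refine gU_SU a ?_ ih
    intro m hm
    simp only [List.length_cons]
    omega
  | swap a b l =>
    rw [wU_cons, wU_cons, wU_cons, wU_cons, ← mul_assoc, ← mul_assoc, ← sub_mul, gU_comm,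
      smul_mul_assoc, ← wU_cons]
    refine Submodule.smul_mem _ _ (mem_SU ?_)
    simp only [List.length_cons]
    omega
  | @trans l₁ l₂ l₃ h1 h2 ih1 ih2 =>
    rw [← h1.length_eq] at ih2
    have := Submodule.add_mem _ ih1 ih2
    rwa [sub_add_sub_cancel] at this

lemma wU_sorted : ∀ (n : ℕ) (l : List ℤ), l.length = n →
    (wU l : UW K) ∈ (SU (fun m => m.Pairwise (· ≤ ·)) : Submodule K (UW K)) := by
  intro n
  induction n using Nat.strong_induction_on with
  | _ n IH =>
  intro l hn
  set l' := l.mergeSort (fun a b => decide (a ≤ b)) with hl'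
  have hp : l.Perm l' := (List.mergeSort_perm l _).symm
  have hs : l'.Pairwise (· ≤ ·) := List.pairwise_mergeSort' (· ≤ ·) l
  have h1 := permU (K := K) hp
  have h2 : (SU (fun m => m.length < l.length) : Submodule K (UW K)) ≤
      SU (fun m => m.Pairwise (· ≤ ·)) := by
    refine Submodule.span_le.2 ?_
    rintro _ ⟨m, hm, rfl⟩
    exact IH m.length (lt_of_lt_of_eq hm hn) m rfl
  have := Submodule.add_mem _ (h2 h1) (mem_SU (K := K) (P := fun m => m.Pairwise (· ≤ ·)) hs)
  rwa [sub_add_cancel] at this

lemma all_words (u : UW K) : u ∈ (SU (fun _ => True) : Submodule K (UW K)) := by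
  refine U_ind (P := fun u => u ∈ (SU (fun _ => True) : Submodule K (UW K))) ?_ ?_ ?_ ?_ u
  · intro a
    rw [Algebra.algebraMap_eq_smul_one]
    refine Submodule.smul_mem _ _ ?_
    have : (wU [] : UW K) = 1 := by simp [wU]
    rw [← this]
    exact mem_SU trivial
  · intro n
    have : (wU [n] : UW K) = gU n := by simp [wU]
    rw [← this]
    exact mem_SU trivial
  · intro x y hx hy
    exact Submodule.add_mem _ hx hy
  · intro x y hx hy
    refine Submodule.span_induction (p := fun x _ => x * y ∈ (SU (fun _ => True) :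
      Submodule K (UW K))) ?_ ?_ ?_ ?_ hx
    · rintro _ ⟨m, _, rfl⟩
      refine Submodule.span_induction (p := fun y _ => wU m * y ∈ (SU (fun _ => True) :
        Submodule K (UW K))) ?_ ?_ ?_ ?_ hy
      · rintro _ ⟨m', _, rfl⟩
        rw [← wU_append]
        exact mem_SU trivial
      · rw [mul_zero]; exact Submodule.zero_mem _
      · intro a b _ _ ha hb; rw [mul_add]; exact Submodule.add_mem _ ha hb
      · intro c a _ ha; rw [mul_smul_comm]; exact Submodule.smul_mem _ _ ha
    · rw [zero_mul]; exact Submodule.zero_mem _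
    · intro a b _ _ ha hb; rw [add_mul]; exact Submodule.add_mem _ ha hb
    · intro c a _ ha; rw [smul_mul_assoc]; exact Submodule.smul_mem _ _ ha

/-- the sorted words span the enveloping algebra -/
lemma sorted_words (u : UW K) : ∃ c : List ℤ →₀ K, (∀ m ∈ c.support, m.Pairwise (· ≤ ·)) ∧
    u = ∑ m ∈ c.support, c m • wU m := by
  have h : (SU (fun _ => True) : Submodule K (UW K)) ≤ SU (fun m => m.Pairwise (· ≤ ·)) := by
    refine Submodule.span_le.2 ?_
    rintro _ ⟨m, _, rfl⟩
    exact wU_sorted _ m rfl
  have h1 := h (all_words u)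
  rw [SU, Finsupp.mem_span_image_iff_linearCombination] at h1
  obtain ⟨c, hc, hu⟩ := h1
  refine ⟨c, fun m hm => (Finsupp.mem_supported K c).1 hc hm, ?_⟩
  rw [← hu, Finsupp.linearCombination_apply]
  rfl

end span

section module

variable {K : Type u} [Field K]

/-- the representation -/
noncomputable def rho : UW K →ₐ[K] Module.End K (Module.Dual K (VM K)) :=
  UniversalEnvelopingAlgebra.lift K (wittHom (k := K) (A := Module.End K (Module.Dual K (VM K)))
    (WD (K := K)).E (by
      intro m n
      refine LinearMap.ext fun x => ?_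
      have h := (WD (K := K)).comm m n x
      rw [LinearMap.sub_apply, Module.End.mul_apply, Module.End.mul_apply, h, LinearMap.smul_apply,
        add_sub_cancel_left]))

lemma rho_gU (n : ℤ) : rho (gU n : UW K) = (WD (K := K)).E n := by
  unfold rho gU
  rw [UniversalEnvelopingAlgebra.lift_ι_apply, wittHom_witt]

lemma rho_wU (m : List ℤ) (v : Module.Dual K (VM K)) :
    rho (wU m : UW K) v = (WD (K := K)).wd m v := by
  induction m with
  | nil => simp [wU, WM.wd]
  | cons n m ih =>
    rw [wU_cons, map_mul, Module.End.mul_apply, ih, rho_gU]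
    rfl

lemma Top_E (n : ℤ) {x : Module.Dual K (VM K)} (hx : x ∈ (WD (K := K)).Top) :
    (WD (K := K)).E n x ∈ (WD (K := K)).Top := by
  rcases le_or_gt n 0 with h | h
  · obtain ⟨a, rfl⟩ : ∃ a : ℕ, n = -(a : ℤ) := ⟨n.natAbs, by omega⟩
    exact (WD (K := K)).cons_Sp a (fun _ _ => trivial) hx
  · refine (WD (K := K)).Sp_map _ (fun l _ => ?_) hx
    exact (WD (K := K)).Sp_mono (fun _ _ => trivial) ((WD (K := K)).E_fw_G l n h)

lemma stable_rho {S : Submodule K (Module.Dual K (VM K))}
    (hS : ∀ n, ∀ x ∈ S, (WD (K := K)).E n x ∈ S) (u : UW K) : ∀ x ∈ S, rho u x ∈ S := by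
  refine U_ind (P := fun u => ∀ x ∈ S, rho u x ∈ S) ?_ ?_ ?_ ?_ u
  · intro a x hx
    rw [AlgHom.commutes, Module.algebraMap_end_apply]
    exact S.smul_mem _ hx
  · intro n x hx
    rw [rho_gU]
    exact hS n x hx
  · intro a b ha hb x hx
    rw [map_add, LinearMap.add_apply]
    exact S.add_mem (ha x hx) (hb x hx)
  · intro a b ha hb x hx
    rw [map_mul, Module.End.mul_apply]
    exact ha _ (hb x hx)

/-- There is a faithful simple module over the enveloping algebra of the Witt algebra. -/
theorem main [CharZero K] : ∃ (M : Type u) (_ : AddCommGroup M) (_ : Module (UW K) M),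
    IsSimpleModule (UW K) M ∧ Module.annihilator (UW K) M = ⊥ := by
  let inst : Module (UW K) (Module.Dual K (VM K)) :=
    Module.compHom _ ((rho : UW K →ₐ[K] Module.End K (Module.Dual K (VM K))) :
      UW K →+* Module.End K (Module.Dual K (VM K)))
  have hsm : ∀ (u : UW K) (x : Module.Dual K (VM K)), u • x = rho u x := fun _ _ => rfl
  let W := WD (K := K)
  let X : Submodule (UW K) (Module.Dual K (VM K)) :=
    { carrier := W.Top
      add_mem' := fun ha hb => W.Top.add_mem ha hb
      zero_mem' := W.Top.zero_mem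
      smul_mem' := fun u x hx => stable_rho (fun n x hx => Top_E n hx) u x hx }
  have hwX : W.w ∈ X := W.mem_Sp (l := []) trivial
  refine ⟨X, inferInstance, inferInstance, ?_, ?_⟩
  · have hnt : Nontrivial X :=
      ⟨⟨⟨W.w, hwX⟩, 0, fun h => W.w0 (congrArg Subtype.val h)⟩⟩
    rw [isSimpleModule_iff]
    refine { eq_bot_or_eq_top := fun N => ?_ }
    by_cases hN : N = ⊥
    · exact Or.inl hN
    right
    obtain ⟨x, hxN, hx0⟩ := (Submodule.ne_bot_iff N).1 hN
    -- the corresponding subspace
    let S : Submodule K (Module.Dual K (VM K)) :=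
      { carrier := {y | ∃ h : y ∈ X, (⟨y, h⟩ : X) ∈ N}
        add_mem' := by
          rintro a b ⟨ha, ha'⟩ ⟨hb, hb'⟩
          exact ⟨X.add_mem ha hb, N.add_mem ha' hb'⟩
        zero_mem' := ⟨X.zero_mem, N.zero_mem⟩
        smul_mem' := by
          rintro c a ⟨ha, ha'⟩
          have h1 : c • a = (algebraMap K (UW K) c) • a := by
            rw [hsm, AlgHom.commutes, Module.algebraMap_end_apply]
          rw [h1]
          exact ⟨X.smul_mem _ ha, N.smul_mem _ ha'⟩ }
    have hS : ∀ n, ∀ y ∈ S, W.E n y ∈ S := by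
      rintro n y ⟨hy, hy'⟩
      have h1 : W.E n y = (gU n : UW K) • y := by rw [hsm, rho_gU]
      rw [h1]
      exact ⟨X.smul_mem _ hy, N.smul_mem _ hy'⟩
    have hw : W.w ∈ S := by
      refine W.simple hS (x := (x : Module.Dual K (VM K))) x.2 ?_ ⟨x.2, hxN⟩
      intro h
      exact hx0 (Subtype.ext h)
    have hTop : W.Top ≤ S := by
      refine Submodule.span_le.2 ?_
      rintro _ ⟨l, _, rfl⟩
      induction l with
      | nil => exact hw
      | cons a l ih => exact hS _ _ ih
    rw [eq_top_iff]
    rintro ⟨y, hy⟩ _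
    obtain ⟨_, h⟩ := hTop hy
    exact h
  · rw [eq_bot_iff]
    intro u hu
    rw [Submodule.mem_bot]
    by_contra hne
    obtain ⟨c, hc, hue⟩ := sorted_words u
    have hc0 : c ≠ 0 := by
      intro h
      rw [h] at hue
      exact hne (by simpa using hue)
    obtain ⟨v, hv, hv0⟩ := W.faithful c hc0 hc
    apply hv0
    rw [Module.mem_annihilator] at hu
    have h1 := congrArg Subtype.val (hu ⟨v, hv⟩)
    have h2 : rho u v = 0 := h1
    rw [hue, map_sum, LinearMap.sum_apply] at h2
    rw [← h2]
    refine Finset.sum_congr rfl fun m _ => ?_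
    rw [map_smul, LinearMap.smul_apply, rho_wU]

end module

end Q65.WP
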