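import Pool.Agent.Q65.WP.Core

/-!
# Sorted words form a basis, and simplicity
-/

set_option autoImplicit false

namespace Q65.WP

open Polynomial

universe u v

namespace WM

variable {K : Type u} {M : Type v} [Field K] [AddCommGroup M] [Module K M] (W : WM K M)

/-- the positive letters of a word -/
def pos (l : List ℕ) : List ℕ := l.filter (fun a => decide (0 < a))

lemma pos_cons_zero (l : List ℕ) : pos (0 :: l) = pos l := by
  rw [pos, List.filter_cons_of_neg (by simp)]
  rfl

lemma pos_of_pos {l : List ℕ} (h : ∀ a ∈ l, 1 ≤ a) : pos l = l := by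
  rw [pos, List.filter_eq_self]
  intro a ha
  have := h a ha
  simp only [decide_eq_true_eq]
  omega

lemma sorted_pos {a : ℕ} {l : List ℕ} (h : (a :: l).Pairwise (· ≤ ·)) (ha : 1 ≤ a) :
    ∀ b ∈ a :: l, 1 ≤ b := by
  intro b hb
  rcases List.mem_cons.1 hb with h1 | h1
  · omega
  · have := (List.pairwise_cons.1 h).1 b h1
    omega

lemma count_zero_of_pos {l : List ℕ} (h : ∀ a ∈ l, 1 ≤ a) : l.count 0 = 0 := by
  rw [List.count_eq_zero]
  intro h0
  have := h 0 h0
  omega

lemma sorted_split (l : List ℕ) (h : l.Pairwise (· ≤ ·)) :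
    l = List.replicate (l.count 0) 0 ++ pos l := by
  induction l with
  | nil => simp [pos]
  | cons a l ih =>
    rcases Nat.eq_zero_or_pos a with rfl | ha
    · rw [List.count_cons_self, pos_cons_zero, List.replicate_succ, List.cons_append,
        ← ih (List.pairwise_cons.1 h).2]
    · rw [count_zero_of_pos (sorted_pos h ha), pos_of_pos (sorted_pos h ha)]
      simp

lemma fw_split (l : List ℕ) (h : l.Pairwise (· ≤ ·)) :
    W.fw l = W.A (X ^ (l.count 0)) (W.fw (pos l)) := by
  induction l with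
  | nil =>
    rw [List.count_nil, pow_zero, ← C_1, A_C, one_smul]
    rfl
  | cons a l ih =>
    rcases Nat.eq_zero_or_pos a with rfl | ha
    · rw [List.count_cons_self, pos_cons_zero, pow_succ', A_mul, A_X, fw_cons,
        ← ih (List.pairwise_cons.1 h).2]
      simp
    · rw [count_zero_of_pos (sorted_pos h ha), pos_of_pos (sorted_pos h ha), pow_zero, ← C_1, A_C,
        one_smul]

lemma PS_pos {l : List ℕ} (h : l.Pairwise (· ≤ ·)) : PS (pos l) := by
  refine ⟨h.sublist List.filter_sublist, fun a ha => ?_⟩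
  have := (List.mem_filter.1 ha).2
  simp only [decide_eq_true_eq] at this
  omega

lemma sum_pos' (l : List ℕ) : (pos l).sum = l.sum := by
  induction l with
  | nil => rfl
  | cons a l ih =>
    rcases Nat.eq_zero_or_pos a with rfl | ha
    · rw [pos_cons_zero, ih, List.sum_cons, zero_add]
    · rw [pos, List.filter_cons_of_pos (by simpa using ha), List.sum_cons, List.sum_cons]
      congr 1

/-- `x` is the sum of a combination of sorted words of weight `N` and of lower terms -/
def Rep (N : ℕ) (x : M) : Prop :=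
  ∃ F : List ℕ →₀ K[X], (∀ l ∈ F.support, PS l ∧ l.sum = N) ∧ x - W.Psi F ∈ W.Wt ((N : ℤ) - 1)

lemma Rep_add {N : ℕ} {x y : M} (hx : W.Rep N x) (hy : W.Rep N y) : W.Rep N (x + y) := by
  obtain ⟨F, hF, h1⟩ := hx
  obtain ⟨F', hF', h1'⟩ := hy
  refine ⟨F + F', fun l hl => ?_, ?_⟩
  · rcases Finset.mem_union.1 (Finsupp.support_add hl) with h | h
    · exact hF l h
    · exact hF' l h
  · rw [Psi_add, add_sub_add_comm]
    exact Submodule.add_mem _ h1 h1'

lemma Rep_of_Wt {N : ℕ} {x : M} (hx : x ∈ W.Wt ((N : ℤ) - 1)) : W.Rep N x :=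
  ⟨0, fun l hl => by simp at hl, by rwa [Psi_zero, sub_zero]⟩

lemma Psi_smul (c : K) (F : List ℕ →₀ K[X]) : W.Psi (c • F) = c • W.Psi F := by
  unfold Psi
  have h := Finsupp.sum_smul_index' (g := F) (b := c) (h := fun l p => W.A p (W.fw l))
    (fun l => W.A_zero _)
  rw [h, Finsupp.smul_sum]
  refine Finsupp.sum_congr fun l _ => ?_
  rw [smul_eq_C_mul, A_C_mul]

lemma Rep_smul {N : ℕ} {x : M} (c : K) (hx : W.Rep N x) : W.Rep N (c • x) := by
  obtain ⟨F, hF, h1⟩ := hx
  refine ⟨c • F, fun l hl => hF l (Finsupp.support_smul hl), ?_⟩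
  rw [Psi_smul, ← smul_sub]
  exact Submodule.smul_mem _ _ h1

lemma Rep_fw (N : ℕ) : ∀ (n : ℕ) (l : List ℕ), l.length = n → l.sum = N → W.Rep N (W.fw l) := by
  intro n
  induction n using Nat.strong_induction_on with
  | _ n IH =>
  intro l hn hN
  set l' := l.mergeSort (fun a b => decide (a ≤ b)) with hl'
  have hp : l.Perm l' := (List.mergeSort_perm l _).symm
  have hs : l'.Pairwise (· ≤ ·) := List.pairwise_mergeSort' (· ≤ ·) l
  have h1 := W.perm hp
  have h2 : W.Rep N (W.fw l - W.fw l') := by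
    refine Submodule.span_induction (p := fun x _ => W.Rep N x) ?_ ?_ ?_ ?_ h1
    · rintro x ⟨m, ⟨hm1, hm2⟩, rfl⟩
      exact IH m.length (by omega) m rfl (by omega)
    · exact W.Rep_of_Wt (Submodule.zero_mem _)
    · intro x y _ _ hx hy
      exact W.Rep_add hx hy
    · intro c x _ hx
      exact W.Rep_smul c hx
  have h3 : W.Rep N (W.fw l') := by
    refine ⟨Finsupp.single (pos l') (X ^ (l'.count 0)), ?_, ?_⟩
    · intro m hm
      have := Finsupp.support_single_subset hm
      rw [Finset.mem_singleton] at this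
      subst this
      refine ⟨PS_pos hs, ?_⟩
      rw [sum_pos', ← hp.sum_eq, hN]
    · rw [Psi_single, ← W.fw_split l' hs, sub_self]
      exact Submodule.zero_mem _
  have := W.Rep_add h2 h3
  rwa [sub_add_cancel] at this

lemma Rep_Wt (N : ℕ) {x : M} (hx : x ∈ W.Wt N) : W.Rep N x := by
  refine Submodule.span_induction (p := fun x _ => W.Rep N x) ?_ ?_ ?_ ?_ hx
  · rintro x ⟨m, hm, rfl⟩
    rcases eq_or_lt_of_le hm with h | h
    · exact W.Rep_fw N _ m rfl (by exact_mod_cast h)
    · refine W.Rep_of_Wt (W.fw_Wt ?_)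
      omega
  · exact W.Rep_of_Wt (Submodule.zero_mem _)
  · intro x y _ _ hx hy
    exact W.Rep_add hx hy
  · intro c x _ hx
    exact W.Rep_smul c hx

/-- the submodule generated by `w` -/
def Top : Submodule K M := W.Sp (fun _ => True)

lemma exists_Wt {x : M} (hx : x ∈ W.Top) : ∃ N : ℕ, x ∈ W.Wt N := by
  refine Submodule.span_induction (p := fun x _ => ∃ N : ℕ, x ∈ W.Wt N) ?_ ?_ ?_ ?_ hx
  · rintro x ⟨m, _, rfl⟩
    exact ⟨m.sum, W.fw_Wt le_rfl⟩
  · exact ⟨0, Submodule.zero_mem _⟩
  · rintro x y _ _ ⟨a, ha⟩ ⟨b, hb⟩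
    exact ⟨max a b, Submodule.add_mem _ (W.Wt_mono (by simp) ha) (W.Wt_mono (by simp) hb)⟩
  · rintro c x _ ⟨a, ha⟩
    exact ⟨a, Submodule.smul_mem _ _ ha⟩

/-- simplicity: every nonzero vector generates `w` -/
theorem simple [CharZero K] {S : Submodule K M} (hS : ∀ (n : ℤ), ∀ x ∈ S, W.E n x ∈ S) {x : M}
    (hx : x ∈ W.Top) (hx0 : x ≠ 0) (hxS : x ∈ S) : W.w ∈ S := by
  classical
  have hex := W.exists_Wt hx
  have h1 := Nat.find_spec hex
  have h2 := fun m => Nat.find_min hex (m := m)
  set N := Nat.find hex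
  obtain ⟨F, hF, hy⟩ := W.Rep_Wt N h1
  by_cases hF0 : F = 0
  · exfalso
    rw [hF0, Psi_zero, sub_zero] at hy
    rcases Nat.eq_zero_or_pos N with hN | hN
    · rw [hN, W.Wt_neg (by norm_num)] at hy
      exact hx0 ((Submodule.mem_bot K).1 hy)
    · refine h2 (N - 1) (by omega) ?_
      have : (((N - 1 : ℕ) : ℤ)) = (N : ℤ) - 1 := by omega
      rwa [this]
  · refine W.claim hS N F hF0 hF _ hy ?_
    rwa [add_sub_cancel]

/-! ### The linear map from polynomials -/

/-- the sorted list of a monomial -/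
noncomputable def srt (s : ℕ →₀ ℕ) : List ℕ := (Finsupp.toMultiset s).sort (· ≤ ·)

lemma srt_sorted (s : ℕ →₀ ℕ) : (srt s).Pairwise (· ≤ ·) := Multiset.pairwise_sort _ _

lemma srt_coe (s : ℕ →₀ ℕ) : (srt s : Multiset ℕ) = Finsupp.toMultiset s := Multiset.sort_eq _ _

lemma srt_inj {s t : ℕ →₀ ℕ} (h : srt s = srt t) : s = t := by
  have h1 : Finsupp.toMultiset s = Finsupp.toMultiset t := by rw [← srt_coe, ← srt_coe, h]
  classical
  rw [← Finsupp.toMultiset_toFinsupp s, h1, Finsupp.toMultiset_toFinsupp]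

lemma srt_cons (s : ℕ →₀ ℕ) (a : ℕ) : (a :: srt s).Perm (srt (s + Finsupp.single a 1)) := by
  rw [← Multiset.coe_eq_coe, ← Multiset.cons_coe, srt_coe, srt_coe, Finsupp.toMultiset_add,
    Finsupp.toMultiset_single, one_smul, add_comm]
  rfl

lemma srt_length (s : ℕ →₀ ℕ) : (srt s).length = s.degree := by
  rw [← Multiset.coe_card, srt_coe, Finsupp.card_toMultiset]
  rfl

/-- the linear map from polynomials to the module -/
noncomputable def Phi : MvPolynomial ℕ K →ₗ[K] M :=
  (MvPolynomial.basisMonomials ℕ K).constr K (fun s => W.fw (srt s))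

lemma Phi_monomial (s : ℕ →₀ ℕ) (c : K) : W.Phi (MvPolynomial.monomial s c) = c • W.fw (srt s) := by
  have h : MvPolynomial.monomial s c = c • MvPolynomial.basisMonomials ℕ K s := by
    rw [MvPolynomial.coe_basisMonomials, MvPolynomial.smul_monomial, smul_eq_mul, mul_one]
  rw [h, map_smul, Phi, Module.Basis.constr_basis]

lemma Phi_eq (p : MvPolynomial ℕ K) :
    W.Phi p = ∑ s ∈ p.support, p.coeff s • W.fw (srt s) := by
  conv_lhs => rw [p.as_sum, map_sum]
  exact Finset.sum_congr rfl fun s _ => W.Phi_monomial s _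

theorem Phi_inj [CharZero K] {p : MvPolynomial ℕ K} (hp : p ≠ 0) : W.Phi p ≠ 0 := by
  intro h0
  have hne : p.support.Nonempty := MvPolynomial.support_nonempty.2 hp
  obtain ⟨s0, hs0, hmax⟩ := Finset.exists_max_image p.support (fun s => (srt s).sum) hne
  set N := (srt s0).sum with hN
  set F : List ℕ →₀ K[X] := ∑ s ∈ p.support.filter (fun s => (srt s).sum = N),
    Finsupp.single (pos (srt s)) (C (p.coeff s) * X ^ ((srt s).count 0)) with hF
  have hval : (F (pos (srt s0))).coeff ((srt s0).count 0) = p.coeff s0 := by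
    rw [hF, Finsupp.finsetSum_apply, finsetSum_coeff]
    rw [Finset.sum_eq_single s0]
    · rw [Finsupp.single_eq_same, coeff_C_mul, coeff_X_pow_self, mul_one]
    · intro s _ hne
      by_cases h : pos (srt s0) = pos (srt s)
      · rw [h, Finsupp.single_eq_same, coeff_C_mul, coeff_X_pow, if_neg, mul_zero]
        intro h1
        apply hne
        apply srt_inj
        rw [sorted_split _ (srt_sorted s), sorted_split _ (srt_sorted s0), h, h1]
      · rw [Finsupp.single_eq_of_ne h, coeff_zero]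
    · intro h
      exact (h (Finset.mem_filter.2 ⟨hs0, rfl⟩)).elim
  have hF0 : F ≠ 0 := by
    intro h
    rw [h, Finsupp.zero_apply, coeff_zero] at hval
    exact MvPolynomial.mem_support_iff.1 hs0 hval.symm
  have hFs : ∀ l ∈ F.support, PS l ∧ l.sum = N := by
    intro l hl
    rw [Finsupp.mem_support_iff, hF, Finsupp.finsetSum_apply] at hl
    obtain ⟨m, hm, hm0⟩ := Finset.exists_ne_zero_of_sum_ne_zero hl
    rw [Finset.mem_filter] at hm
    by_cases he : l = pos (srt m)
    · subst he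
      exact ⟨PS_pos (srt_sorted m), by rw [sum_pos', hm.2]⟩
    · rw [Finsupp.single_eq_of_ne he] at hm0
      exact absurd rfl hm0
  have hPsi : W.Psi F = ∑ s ∈ p.support.filter (fun s => (srt s).sum = N),
      p.coeff s • W.fw (srt s) := by
    rw [hF, Psi_sum]
    refine Finset.sum_congr rfl fun s _ => ?_
    rw [Psi_single, A_C_mul, ← W.fw_split _ (srt_sorted s)]
  have hy : (∑ s ∈ p.support.filter (fun s => ¬ (srt s).sum = N), p.coeff s • W.fw (srt s)) ∈
      W.Wt ((N : ℤ) - 1) := by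
    refine Submodule.sum_mem _ fun s hs => Submodule.smul_mem _ _ (W.fw_Wt ?_)
    rw [Finset.mem_filter] at hs
    have := hmax s hs.1
    omega
  have hsum : W.Psi F + (∑ s ∈ p.support.filter (fun s => ¬ (srt s).sum = N),
      p.coeff s • W.fw (srt s)) = 0 := by
    rw [hPsi, Finset.sum_filter_add_sum_filter_not, ← W.Phi_eq, h0]
  have := W.claim (S := ⊥) (fun n x hx => by
    rw [Submodule.mem_bot] at hx ⊢
    rw [hx, map_zero]) N F hF0 hFs _ hy (by rw [hsum]; exact Submodule.zero_mem _)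
  exact W.w0 ((Submodule.mem_bot K).1 this)

end WM

end Q65.WP
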